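import Mathlib

/-!
# A weak `(2,0)`-ring in the sense of Mahdou with positive small finitistic dimension

Let `B` be a local domain with maximal ideal `m`, let `E` be the direct sum of countably many copies
of each of the modules `B/fB`, `0 ≠ f ∈ m`, and let `R = B ⋉ E` be the trivial extension. A proper
nonzero ideal of `R` is never finitely presented: if `r_1, ..., r_n` are minimal generators and
`f` is the first component of `r_1` (or any nonzero element of `m` when this is zero) then the
generators of the copies of `B/fB` give syzygies of `r_1` which are not in the span of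
finitely many syzygies. So every `n`-presented cyclic module with `n ≥ 2` is `0` or free. On the
other hand if `x, y ∈ m` are such that `y` is prime and does not divide `x` then `R → R^2`,
`r ↦ (r x, r y)` is injective and does not split, so that its cokernel has projective dimension one.
-/

set_option autoImplicit false

universe u

namespace Pool.Agent.Results.MP_682377_al.WeakRingsOfLargeFPD

open IsLocalRing CategoryTheory
open scoped DirectSum

/-! ### Definitions -/

/-- `n`-presented modules: `0`-presented means finitely generated, and `M` is `(n+1)`-presented if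
there is a surjection `R^k → M` whose kernel is `n`-presented. -/
def IsPresented (R : Type u) [CommRing R] : ℕ → ∀ (M : Type u) [AddCommGroup M] [Module R M], Prop
  | 0, M, _, _ => Module.Finite R M
  | n + 1, M, _, _ => ∃ (k : ℕ) (f : (Fin k → R) →ₗ[R] M), Function.Surjective f ∧
      IsPresented R n (LinearMap.ker f)

/-- Weak `(n,d)`-rings in the sense of Mahdou: `pd (R/I) ≤ d` for every ideal `I` for which
`R/I` is `n`-presented. -/
def IsWeakMahdou (n d : ℕ) (R : Type u) [CommRing R] : Prop :=
  ∀ I : Ideal R, IsPresented R n (R ⧸ I) → HasProjectiveDimensionLE (ModuleCat.of R (R ⧸ I)) d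

/-- `M` has a resolution `0 → P_m → ... → P_0 → M → 0` by finitely generated projectives. -/
def HasFiniteRes (R : Type u) [CommRing R] : ℕ → ∀ (M : Type u) [AddCommGroup M] [Module R M], Prop
  | 0, M, _, _ => Module.Finite R M ∧ Module.Projective R M
  | m + 1, M, _, _ => ∃ (P : Type u) (_ : AddCommGroup P) (_ : Module R P) (f : P →ₗ[R] M),
      Module.Finite R P ∧ Module.Projective R P ∧ Function.Surjective f ∧
        HasFiniteRes R m (LinearMap.ker f)

/-- The small finitistic dimension. -/
noncomputable def smallFPD (R : Type u) [CommRing R] : WithBot ℕ∞ :=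
  ⨆ (M : ModuleCat.{u} R) (_ : ∃ m : ℕ, HasFiniteRes R m M), projectiveDimension M

/-! ### Generalities -/

theorem IsPresented.anti {R : Type u} [CommRing R] : ∀ (n : ℕ) (M : Type u) [AddCommGroup M]
    [Module R M], IsPresented R (n + 1) M → IsPresented R n M := by
  intro n
  induction n with
  | zero =>
    rintro M _ _ ⟨k, f, hf, _⟩
    exact Module.Finite.of_surjective f hf
  | succ n ih =>
    rintro M _ _ ⟨k, f, hf, h⟩
    exact ⟨k, f, hf, ih _ h⟩

theorem IsPresented.two {R : Type u} [CommRing R] (n : ℕ) (hn : 2 ≤ n) (M : Type u)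
    [AddCommGroup M] [Module R M] (h : IsPresented R n M) : IsPresented R 2 M := by
  induction n, hn using Nat.le_induction with
  | base => exact h
  | succ n _ ih => exact ih (IsPresented.anti n M h)

theorem finitePresentation_of_one {R : Type u} [CommRing R] (M : Type u)
    [AddCommGroup M] [Module R M] (h : IsPresented R 1 M) : Module.FinitePresentation R M := by
  obtain ⟨k, f, hf, h0⟩ := h
  have h1 : Module.Finite R (LinearMap.ker f) := h0
  exact Module.finitePresentation_of_surjective f hf (Module.Finite.iff_fg.1 h1)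

/-- A form of Schanuel's lemma. -/
theorem ideal_finitePresentation {R : Type u} [CommRing R] (I : Ideal R)
    (h : IsPresented R 2 (R ⧸ I)) : Module.FinitePresentation R I := by
  obtain ⟨k, f, hf, h1⟩ := h
  have hK := finitePresentation_of_one _ h1
  let π : R →ₗ[R] R ⧸ I := I.mkQ
  let δ : ((Fin k → R) × R) →ₗ[R] R ⧸ I := f ∘ₗ LinearMap.fst R _ _ - π ∘ₗ LinearMap.snd R _ _
  have hδ : ∀ a : (Fin k → R) × R, a ∈ LinearMap.ker δ ↔ f a.1 = π a.2 := by
    intro a
    rw [LinearMap.mem_ker]
    change f a.1 - π a.2 = 0 ↔ _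
    rw [sub_eq_zero]
  let p1 : LinearMap.ker δ →ₗ[R] (Fin k → R) := LinearMap.fst R _ _ ∘ₗ (LinearMap.ker δ).subtype
  let p2 : LinearMap.ker δ →ₗ[R] R := LinearMap.snd R _ _ ∘ₗ (LinearMap.ker δ).subtype
  have hp2 : Function.Surjective p2 := by
    intro r
    obtain ⟨a, ha⟩ := hf (π r)
    exact ⟨⟨(a, r), (hδ _).2 ha⟩, rfl⟩
  have hp1 : Function.Surjective p1 := by
    intro a
    obtain ⟨r, hr⟩ := I.mkQ_surjective (f a)
    exact ⟨⟨(a, r), (hδ _).2 hr.symm⟩, rfl⟩
  -- the kernel of `p2`
  let e : LinearMap.ker f ≃ₗ[R] LinearMap.ker p2 :=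
    { toFun := fun a => ⟨⟨(a, 0), (hδ _).2 (by
        change f a = π 0
        rw [map_zero]; exact a.2)⟩, rfl⟩
      invFun := fun b => ⟨b.1.1.1, by
        have h2 := (hδ _).1 b.1.2
        have h3 : b.1.1.2 = 0 := b.2
        rw [h3, map_zero] at h2
        exact h2⟩
      left_inv := fun a => rfl
      right_inv := fun b => by
        apply Subtype.ext
        apply Subtype.ext
        have h3 : b.1.1.2 = 0 := b.2
        exact Prod.ext rfl h3.symm
      map_add' := fun a b => by
        apply Subtype.ext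
        apply Subtype.ext
        exact Prod.ext rfl (add_zero _).symm
      map_smul' := fun r a => by
        apply Subtype.ext
        apply Subtype.ext
        exact Prod.ext rfl (smul_zero _).symm }
  have h2 : Module.FinitePresentation R (LinearMap.ker p2) :=
    Module.FinitePresentation.of_equiv (R := R) (M := LinearMap.ker f) (N := LinearMap.ker p2) e
  have h3 : Module.FinitePresentation R (LinearMap.ker δ) :=
    Module.finitePresentation_of_ker p2 hp2
  let ι : I →ₗ[R] LinearMap.ker δ :=
    LinearMap.codRestrict (LinearMap.ker δ) (LinearMap.inr R _ _ ∘ₗ I.subtype) (by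
      intro r
      rw [hδ]
      change f 0 = π r
      rw [map_zero]
      exact ((Submodule.Quotient.mk_eq_zero _).2 r.2).symm)
  have hι : Function.Injective ι := by
    intro a b hab
    have h4 := congrArg (fun c => c.1.2) hab
    exact Subtype.ext h4
  have hex : Function.Exact ι p1 := by
    rintro ⟨⟨a, r⟩, har⟩
    constructor
    · intro h5
      have h6 : a = 0 := h5
      subst h6
      have h7 := (hδ _).1 har
      change f 0 = π r at h7
      rw [map_zero] at h7
      exact ⟨⟨r, (Submodule.Quotient.mk_eq_zero _).1 h7.symm⟩, rfl⟩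
    · rintro ⟨b, hb⟩
      rw [← hb]
      rfl
  exact Module.finitePresentation_of_projective_of_exact ι p1 hι hp1 hex

/-! ### The ring -/

section ring

variable (B : Type u) [CommRing B] [IsLocalRing B]

/-- indices: the nonzero elements of the maximal ideal, with multiplicity -/
abbrev Idx : Type u := {f : B // f ≠ 0 ∧ f ∈ maximalIdeal B} × ℕ

/-- the direct sum of countably many copies of each `B/fB`, `0 ≠ f ∈ m` -/
abbrev EE : Type u := ⨁ i : Idx B, B ⧸ (Ideal.span {(i.1 : B)} : Ideal B)

/-- the trivial extension `B ⋉ E` -/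
abbrev RR : Type u := TrivSqZeroExt B (EE B)

variable {B}

theorem isUnit_iff (r : RR B) : IsUnit r ↔ IsUnit r.fst := TrivSqZeroExt.isUnit_iff_isUnit_fst

instance : IsLocalRing (RR B) := by
  have : Nontrivial (RR B) := ⟨⟨0, 1, fun h => zero_ne_one (congrArg TrivSqZeroExt.fst h)⟩⟩
  refine IsLocalRing.of_nonunits_add ?_
  intro a b ha hb
  rw [mem_nonunits_iff, isUnit_iff] at ha hb ⊢
  rw [TrivSqZeroExt.fst_add]
  exact Ideal.add_mem (maximalIdeal B) ha hb

theorem mem_max (r : RR B) : r ∈ maximalIdeal (RR B) ↔ r.fst ∈ maximalIdeal B := by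
  rw [mem_maximalIdeal, mem_maximalIdeal, mem_nonunits_iff, mem_nonunits_iff, isUnit_iff]

/-- Finitely presented ideals are trivial. -/
theorem fp_ideal (hB : maximalIdeal B ≠ ⊥) (I : Ideal (RR B)) (hI : Module.FinitePresentation (RR B) I) :
    I = ⊥ ∨ I = ⊤ := by
  classical
  by_contra hcon
  push Not at hcon
  obtain ⟨h0, h1⟩ := hcon
  have hfg : I.FG := Module.Finite.iff_fg.1 inferInstance
  obtain ⟨T, hT1, hT2⟩ := Submodule.FG.exists_span_finset_card_eq_spanFinrank hfg
  have hTne : T.Nonempty := by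
    rw [Finset.nonempty_iff_ne_empty]
    rintro rfl
    apply h0
    rw [← hT2]
    simp
  obtain ⟨t₀, ht₀⟩ := hTne
  have hTI : ∀ t ∈ T, t ∈ I := fun t ht => by rw [← hT2]; exact Submodule.subset_span ht
  have hIm : I ≤ maximalIdeal (RR B) := IsLocalRing.le_maximalIdeal h1
  -- the presentation
  let φ : (T → RR B) →ₗ[RR B] I := Fintype.linearCombination (RR B) (fun t : T => (⟨t, hTI t t.2⟩ : I))
  have hφ : ∀ a : T → RR B, ((φ a : I) : RR B) = ∑ t, a t * (t : RR B) := by
    intro a
    rw [Fintype.linearCombination_apply]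
    push_cast
    rfl
  have hφs : Function.Surjective φ := by
    rw [← LinearMap.range_eq_top, Fintype.range_linearCombination]
    apply Submodule.map_injective_of_injective I.injective_subtype
    rw [Submodule.map_span, ← Set.range_comp, Submodule.map_top, Submodule.range_subtype]
    have : (I.subtype ∘ fun t : T => (⟨t, hTI t t.2⟩ : I)) = Subtype.val := rfl
    rw [this, Subtype.range_coe_subtype]
    exact hT2
  -- relations have coefficients in the maximal ideal
  have hmin : ∀ a : T → RR B, φ a = 0 → ∀ t, a t ∈ maximalIdeal (RR B) := by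
    intro a ha t₁
    by_contra hu
    have hu' : IsUnit (a t₁) := by
      by_contra h
      exact hu h
    have h2 : ∑ t, a t * (t : RR B) = 0 := by
      rw [← hφ, ha]; rfl
    have h3 : (t₁ : RR B) ∈ Ideal.span ((T.erase t₁ : Finset (RR B)) : Set (RR B)) := by
      rw [← Ideal.unit_mul_mem_iff_mem _ hu']
      rw [← Finset.add_sum_erase _ _ (Finset.mem_univ t₁)] at h2
      rw [eq_neg_of_add_eq_zero_left h2]
      refine neg_mem (Ideal.sum_mem _ fun t ht => Ideal.mul_mem_left _ _
        (Ideal.subset_span ?_))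
      rw [Finset.mem_coe, Finset.mem_erase]
      exact ⟨fun h => (Finset.mem_erase.1 ht).1 (Subtype.ext h), t.2⟩
    have h4 : I = Submodule.span (RR B) ((T.erase t₁ : Finset (RR B)) : Set (RR B)) := by
      apply le_antisymm
      · rw [← hT2]
        refine Submodule.span_le.2 ?_
        intro t ht
        by_cases htt : t = t₁
        · rw [htt]; exact h3
        · exact Submodule.subset_span (Finset.mem_erase.2 ⟨htt, ht⟩)
      · rw [← hT2]
        exact Submodule.span_mono (Finset.coe_subset.2 (Finset.erase_subset _ _))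
    have h5 : Submodule.spanFinrank I ≤ (T.erase (t₁ : RR B)).card := by
      conv_lhs => rw [h4]
      have h6 := Submodule.spanFinrank_span_le_ncard_of_finite (R := RR B)
        (Finset.finite_toSet (T.erase (t₁ : RR B)))
      rwa [Set.ncard_coe_finset] at h6
    have h7 : (T.erase (t₁ : RR B)).card < T.card := Finset.card_erase_lt_of_mem t₁.2
    omega
  -- the element f
  obtain ⟨f, hf⟩ : ∃ f : {f : B // f ≠ 0 ∧ f ∈ maximalIdeal B},
      ∀ ν : ℕ, (TrivSqZeroExt.inr (DirectSum.of (fun i : Idx B =>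
        B ⧸ (Ideal.span {(i.1 : B)} : Ideal B)) (f, ν) 1) : RR B) * t₀ = 0 := by
    have key : ∀ (e : EE B) (r : RR B), (TrivSqZeroExt.inr e : RR B) * r =
        TrivSqZeroExt.inr (r.fst • e) := by
      intro e r
      ext
      · simp
      · simp
    by_cases hz : t₀.fst = 0
    · obtain ⟨f, hf1, hf2⟩ := Submodule.exists_mem_ne_zero_of_ne_bot hB
      refine ⟨⟨f, hf2, hf1⟩, fun ν => ?_⟩
      rw [key, hz, zero_smul, TrivSqZeroExt.inr_zero]
    · have hm : t₀.fst ∈ maximalIdeal B := (mem_max t₀).1 (hIm (hTI t₀ ht₀))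
      refine ⟨⟨t₀.fst, hz, hm⟩, fun ν => ?_⟩
      rw [key]
      have : t₀.fst • (DirectSum.of (fun i : Idx B => B ⧸ (Ideal.span {(i.1 : B)} : Ideal B))
          (⟨t₀.fst, hz, hm⟩, ν) 1) = 0 := by
        rw [← DirectSum.lof_eq_of B, ← map_smul]
        have h8 : t₀.fst • (1 : B ⧸ (Ideal.span {t₀.fst} : Ideal B)) = 0 := by
          rw [Algebra.smul_def, mul_one]
          exact Ideal.Quotient.eq_zero_iff_mem.2 (Ideal.mem_span_singleton_self _)
        rw [h8, map_zero]
      rw [this, TrivSqZeroExt.inr_zero]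
  -- finitely many syzygies
  obtain ⟨S, hS⟩ := Module.FinitePresentation.fg_ker (R := RR B) (M := T → RR B) (N := I) φ hφs
  obtain ⟨ν, hν⟩ : ∃ ν : ℕ, ∀ s ∈ S, (s ⟨t₀, ht₀⟩).snd (f, ν) = 0 := by
    let U : Finset ℕ := S.biUnion fun s =>
      (DFinsupp.support (s ⟨t₀, ht₀⟩).snd).image fun i => i.2
    obtain ⟨ν, hν⟩ := Infinite.exists_notMem_finset U
    refine ⟨ν, fun s hs => ?_⟩
    by_contra hne
    apply hν
    refine Finset.mem_biUnion.2 ⟨s, hs, Finset.mem_image.2 ⟨(f, ν), ?_, rfl⟩⟩
    exact DFinsupp.mem_support_iff.2 hne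
  have hsp : ∀ a ∈ Submodule.span (RR B) (S : Set (T → RR B)),
      (a ⟨t₀, ht₀⟩).fst ∈ maximalIdeal B ∧ (a ⟨t₀, ht₀⟩).snd (f, ν) ∈
        maximalIdeal B • (⊤ : Submodule B (B ⧸ (Ideal.span {(f : B)} : Ideal B))) := by
    intro a ha
    induction ha using Submodule.span_induction with
    | mem s hs =>
      refine ⟨?_, ?_⟩
      · rw [← mem_max]
        apply hmin
        rw [← LinearMap.mem_ker, ← hS]
        exact Submodule.subset_span hs
      · rw [hν s hs]
        exact Submodule.zero_mem _
    | zero => exact ⟨Ideal.zero_mem _, Submodule.zero_mem _⟩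
    | add a b _ _ ha hb => exact ⟨Ideal.add_mem _ ha.1 hb.1, Submodule.add_mem _ ha.2 hb.2⟩
    | smul r a _ ha =>
      refine ⟨Ideal.mul_mem_left _ _ ha.1, ?_⟩
      have h9 : ((r • a) ⟨t₀, ht₀⟩).snd = r.fst • (a ⟨t₀, ht₀⟩).snd +
          (a ⟨t₀, ht₀⟩).fst • r.snd := by
        change (r * a ⟨t₀, ht₀⟩).snd = _
        rw [TrivSqZeroExt.snd_mul, op_smul_eq_smul]
      rw [h9]
      refine Submodule.add_mem _ (Submodule.smul_mem _ _ ha.2) ?_
      exact Submodule.smul_mem_smul ha.1 trivial
  let w : RR B := TrivSqZeroExt.inr (DirectSum.of (fun i : Idx B =>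
        B ⧸ (Ideal.span {(i.1 : B)} : Ideal B)) (f, ν) 1)
  have hw : (Pi.single (⟨t₀, ht₀⟩ : T) w : T → RR B) ∈ LinearMap.ker φ := by
    rw [LinearMap.mem_ker]
    apply Subtype.ext
    rw [hφ, Finset.sum_eq_single (⟨t₀, ht₀⟩ : T)]
    · rw [Pi.single_eq_same]
      exact hf ν
    · intro t _ ht
      rw [Pi.single_eq_of_ne ht, zero_mul]
    · intro h
      exact absurd (Finset.mem_univ _) h
  rw [← hS] at hw
  have h10 := (hsp _ hw).2
  rw [Pi.single_eq_same] at h10
  have h11 : w.snd (f, ν) = (1 : B ⧸ (Ideal.span {(f : B)} : Ideal B)) :=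
    DirectSum.of_eq_same _ _
  rw [h11] at h10
  have h12 : (1 : B) ∈ maximalIdeal B := by
    have h13 : ∀ y ∈ maximalIdeal B • (⊤ : Submodule B (B ⧸ (Ideal.span {(f : B)} : Ideal B))),
        ∃ b ∈ maximalIdeal B, Ideal.Quotient.mk _ b = y := by
      intro y hy
      induction hy using Submodule.smul_induction_on' with
      | smul a ha z _ =>
        obtain ⟨z, rfl⟩ := Ideal.Quotient.mk_surjective z
        exact ⟨a * z, Ideal.mul_mem_right _ _ ha, rfl⟩
      | add y _ z _ hy hz =>
        obtain ⟨b, hb, rfl⟩ := hy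
        obtain ⟨c, hc, rfl⟩ := hz
        exact ⟨b + c, Ideal.add_mem _ hb hc, rfl⟩
    obtain ⟨b, hb, hb2⟩ := h13 _ h10
    have h14 : (b - 1 : B) ∈ Ideal.span {(f : B)} := Ideal.Quotient.eq.1 hb2
    have h15 : Ideal.span {(f : B)} ≤ maximalIdeal B :=
      (Ideal.span_singleton_le_iff_mem _).2 f.2.2
    have h16 := Ideal.sub_mem _ hb (h15 h14)
    rwa [sub_sub_cancel] at h16
  exact (Ideal.ne_top_iff_one _).1 (maximalIdeal.isMaximal B).ne_top h12

/-- All weak dimension conditions with `n ≥ 2`. -/
theorem weak (hB : maximalIdeal B ≠ ⊥) (n d : ℕ) (hn : 2 ≤ n) : IsWeakMahdou n d (RR B) := by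
  intro I hI
  have h0 : HasProjectiveDimensionLE (ModuleCat.of (RR B) (RR B ⧸ I)) 0 := by
    rw [← projective_iff_hasProjectiveDimensionLE_zero, ← IsProjective.iff_projective]
    rcases fp_ideal hB I (ideal_finitePresentation I (IsPresented.two n hn _ hI)) with rfl | rfl
    · exact Module.Projective.of_equiv (Submodule.quotEquivOfEqBot (⊥ : Ideal (RR B)) rfl).symm
    · have : Subsingleton (RR B ⧸ (⊤ : Ideal (RR B))) := Ideal.Quotient.subsingleton_iff.2 rfl
      infer_instance
  exact hasProjectiveDimensionLT_of_ge _ (0 + 1) (d + 1) (by omega)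

/-- the pair `(x, y)` -/
noncomputable def pairMap (x y : B) : RR B →ₗ[RR B] (Fin 2 → RR B) :=
  LinearMap.pi ![LinearMap.mulLeft (RR B) (TrivSqZeroExt.inl x),
    LinearMap.mulLeft (RR B) (TrivSqZeroExt.inl y)]

theorem pairMap_zero (x y : B) (r : RR B) : pairMap x y r 0 = TrivSqZeroExt.inl x * r := rfl
theorem pairMap_one (x y : B) (r : RR B) : pairMap x y r 1 = TrivSqZeroExt.inl y * r := rfl

variable [IsDomain B]

theorem pairMap_injective (x y : B) (hy : Prime y) (hxy : ¬ y ∣ x) :
    Function.Injective (pairMap x y) := by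
  rw [injective_iff_map_eq_zero]
  intro r hr
  have h0 : TrivSqZeroExt.inl x * r = 0 := congrFun hr 0
  have h1 : TrivSqZeroExt.inl y * r = 0 := congrFun hr 1
  have hx0 : x ≠ 0 := by
    rintro rfl
    exact hxy (dvd_zero y)
  have hfst : r.fst = 0 := by
    have h2 := congrArg TrivSqZeroExt.fst h0
    rw [TrivSqZeroExt.fst_mul, TrivSqZeroExt.fst_inl, TrivSqZeroExt.fst_zero] at h2
    exact (mul_eq_zero.1 h2).resolve_left hx0
  have hsx : x • r.snd = 0 := by
    have h2 := congrArg TrivSqZeroExt.snd h0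
    rw [TrivSqZeroExt.snd_mul, TrivSqZeroExt.fst_inl, TrivSqZeroExt.snd_inl, smul_zero, add_zero,
      TrivSqZeroExt.snd_zero] at h2
    exact h2
  have hsy : y • r.snd = 0 := by
    have h2 := congrArg TrivSqZeroExt.snd h1
    rw [TrivSqZeroExt.snd_mul, TrivSqZeroExt.fst_inl, TrivSqZeroExt.snd_inl, smul_zero, add_zero,
      TrivSqZeroExt.snd_zero] at h2
    exact h2
  have hsnd : r.snd = 0 := by
    refine DFinsupp.ext fun i => ?_
    have h3 : x • r.snd i = 0 := by
      have := DFunLike.congr_fun hsx i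
      exact this
    have h4 : y • r.snd i = 0 := by
      have := DFunLike.congr_fun hsy i
      exact this
    obtain ⟨e, he⟩ := Ideal.Quotient.mk_surjective (r.snd i)
    rw [← he] at h3 h4
    change r.snd i = 0
    rw [← he]
    have h5 : (i.1 : B) ∣ x * e := Ideal.mem_span_singleton.1 (Ideal.Quotient.eq_zero_iff_mem.1 h3)
    have h6 : (i.1 : B) ∣ y * e := Ideal.mem_span_singleton.1 (Ideal.Quotient.eq_zero_iff_mem.1 h4)
    refine Ideal.Quotient.eq_zero_iff_mem.2 (Ideal.mem_span_singleton.2 ?_)
    obtain ⟨u, hu⟩ := h5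
    obtain ⟨v, hv⟩ := h6
    have hf0 : (i.1 : B) ≠ 0 := i.1.2.1
    have h7 : y ∣ (i.1 : B) * v := ⟨e, hv.symm⟩
    rcases hy.dvd_or_dvd h7 with ⟨f', hf'⟩ | ⟨v', hv'⟩
    · -- `f = y f'`, then `e = f' v`
      have h8 : e = f' * v := by
        apply mul_left_cancel₀ hy.ne_zero
        rw [hv, hf', mul_assoc]
      have h9 : x * v = y * u := by
        have hf'0 : f' ≠ 0 := by
          rintro rfl
          rw [mul_zero] at hf'
          exact hf0 hf'
        apply mul_left_cancel₀ hf'0
        calc f' * (x * v) = x * (f' * v) := by ring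
          _ = x * e := by rw [h8]
          _ = (i.1 : B) * u := hu
          _ = f' * (y * u) := by rw [hf']; ring
      obtain ⟨v', hv'⟩ := (hy.dvd_or_dvd ⟨u, h9⟩).resolve_left hxy
      refine ⟨v', ?_⟩
      rw [h8, hv', hf']
      ring
    · refine ⟨v', ?_⟩
      apply mul_left_cancel₀ hy.ne_zero
      rw [hv, hv']
      ring
  exact TrivSqZeroExt.ext hfst hsnd

/-- the cokernel of `r ↦ (x r, y r)` -/
abbrev CC (x y : B) : Type u := (Fin 2 → RR B) ⧸ LinearMap.range (pairMap x y)

theorem hasRes (x y : B) (hy : Prime y) (hxy : ¬ y ∣ x) : HasFiniteRes (RR B) 1 (CC x y) := by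
  refine ⟨Fin 2 → RR B, inferInstance, inferInstance, (LinearMap.range (pairMap x y)).mkQ,
    inferInstance, inferInstance, Submodule.mkQ_surjective _, ?_⟩
  let e : RR B ≃ₗ[RR B] LinearMap.ker (LinearMap.range (pairMap x y)).mkQ :=
    (LinearEquiv.ofInjective _ (pairMap_injective x y hy hxy)).trans
      (LinearEquiv.ofEq _ _ (Submodule.ker_mkQ _).symm)
  exact ⟨Module.Finite.equiv e, Module.Projective.of_equiv e⟩

theorem not_projective (x y : B) (hx : x ∈ maximalIdeal B) (hy : Prime y) (hxy : ¬ y ∣ x) :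
    ¬ Module.Projective (RR B) (CC x y) := by
  intro hp
  obtain ⟨s, hs⟩ := Module.projective_lifting_property (LinearMap.range (pairMap x y)).mkQ
    (LinearMap.id : CC x y →ₗ[RR B] CC x y) (Submodule.mkQ_surjective _)
  -- the projection to the range
  have h1 : ∀ v : Fin 2 → RR B, v - s ((LinearMap.range (pairMap x y)).mkQ v) ∈
      LinearMap.range (pairMap x y) := by
    intro v
    refine (Submodule.Quotient.mk_eq_zero _).1 ?_
    change (LinearMap.range (pairMap x y)).mkQ
      (v - s ((LinearMap.range (pairMap x y)).mkQ v)) = 0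
    rw [map_sub, sub_eq_zero]
    exact (LinearMap.congr_fun hs _).symm
  have hym : y ∈ maximalIdeal B := hy.not_isUnit
  choose a ha using h1
  -- the pair itself
  have h2 : pairMap x y 1 - s ((LinearMap.range (pairMap x y)).mkQ (pairMap x y 1)) =
      pairMap x y 1 := by
    have h3 : (LinearMap.range (pairMap x y)).mkQ (pairMap x y 1) = 0 :=
      (Submodule.Quotient.mk_eq_zero _).2 ⟨1, rfl⟩
    rw [h3, map_zero, sub_zero]
  have h4 : a (pairMap x y 1) = 1 := pairMap_injective x y hy hxy ((ha _).trans h2)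
  have hlin : ∀ (u v : RR B) (e f : Fin 2 → RR B), a (u • e + v • f) = u * a e + v * a f := by
    intro u v e f
    apply pairMap_injective x y hy hxy
    have h6 : pairMap x y (u * a e + v * a f) = u • pairMap x y (a e) + v • pairMap x y (a f) := by
      rw [map_add, ← smul_eq_mul, ← smul_eq_mul, map_smul, map_smul]
    rw [h6, ha, ha, ha, map_add, map_smul, map_smul, map_add, map_smul, map_smul]
    module
  have h5 : pairMap x y 1 = (TrivSqZeroExt.inl x : RR B) • (Pi.single 0 1 : Fin 2 → RR B) +
      (TrivSqZeroExt.inl y : RR B) • (Pi.single 1 1 : Fin 2 → RR B) := by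
    funext i
    fin_cases i
    · change (TrivSqZeroExt.inl x : RR B) * (1 : RR B) = (TrivSqZeroExt.inl x : RR B) *
        ((Pi.single 0 1 : Fin 2 → RR B) 0) + (TrivSqZeroExt.inl y : RR B) *
        ((Pi.single 1 1 : Fin 2 → RR B) 0)
      rw [Pi.single_eq_same, Pi.single_eq_of_ne (by decide), mul_zero, add_zero]
    · change (TrivSqZeroExt.inl y : RR B) * (1 : RR B) = (TrivSqZeroExt.inl x : RR B) *
        ((Pi.single 0 1 : Fin 2 → RR B) 1) + (TrivSqZeroExt.inl y : RR B) *
        ((Pi.single 1 1 : Fin 2 → RR B) 1)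
      rw [Pi.single_eq_same, Pi.single_eq_of_ne (by decide), mul_zero, zero_add]
  rw [h5, hlin] at h4
  have h6 : (1 : RR B) ∈ maximalIdeal (RR B) := by
    rw [← h4]
    refine Ideal.add_mem _ (Ideal.mul_mem_right _ _ ?_) (Ideal.mul_mem_right _ _ ?_)
    · rw [mem_max, TrivSqZeroExt.fst_inl]; exact hx
    · rw [mem_max, TrivSqZeroExt.fst_inl]; exact hym
  exact (Ideal.ne_top_iff_one _).1 (maximalIdeal.isMaximal (RR B)).ne_top h6

theorem one_le (x y : B) (hx : x ∈ maximalIdeal B) (hy : Prime y) (hxy : ¬ y ∣ x) :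
    1 ≤ smallFPD (RR B) := by
  have h1 : projectiveDimension (ModuleCat.of (RR B) (CC x y)) ≤ smallFPD (RR B) := by
    unfold smallFPD
    exact le_iSup₂_of_le (ModuleCat.of (RR B) (CC x y)) ⟨1, hasRes x y hy hxy⟩ le_rfl
  refine le_trans ?_ h1
  by_contra hcon
  have h2 : projectiveDimension (ModuleCat.of (RR B) (CC x y)) < ((1 : ℕ) : WithBot ℕ∞) :=
    not_le.1 hcon
  rw [projectiveDimension_lt_iff] at h2
  have h3 : Projective (ModuleCat.of (RR B) (CC x y)) :=
    projective_iff_hasProjectiveDimensionLT_one.2 h2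
  rw [← IsProjective.iff_projective] at h3
  exact not_projective x y hx hy hxy h3

end ring

/-- There is a commutative (local) ring which is a weak `(n,d)`-ring in the sense of Mahdou for all
`n ≥ 2` and `d ≥ 0` and has small finitistic dimension at least one. In particular the inequality
`fPD(R) ≤ d` fails for weak `(n,0)`-rings with `n ≥ 2`. -/
theorem result : ∃ (R : Type) (_ : CommRing R) (_ : IsLocalRing R),
    (∀ n d : ℕ, 2 ≤ n → IsWeakMahdou n d R) ∧ 1 ≤ smallFPD R := by
  let B : Type := PowerSeries (PowerSeries ℚ)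
  have hy : Prime (PowerSeries.X : B) := PowerSeries.X_prime
  have hx : (PowerSeries.C (PowerSeries.X : PowerSeries ℚ) : B) ∈ maximalIdeal B := by
    intro h
    rw [PowerSeries.isUnit_iff_constantCoeff, PowerSeries.constantCoeff_C,
      PowerSeries.isUnit_iff_constantCoeff, PowerSeries.constantCoeff_X] at h
    exact not_isUnit_zero h
  have hxy : ¬ (PowerSeries.X : B) ∣ (PowerSeries.C (PowerSeries.X : PowerSeries ℚ) : B) := by
    rw [PowerSeries.X_dvd_iff, PowerSeries.constantCoeff_C]
    exact PowerSeries.X_ne_zero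
  have hB : maximalIdeal B ≠ ⊥ := by
    intro h
    have h1 : (PowerSeries.X : B) ∈ maximalIdeal B := hy.not_isUnit
    rw [h] at h1
    exact hy.ne_zero h1
  exact ⟨RR B, inferInstance, inferInstance, fun n d hn => weak hB n d hn, one_le _ _ hx hy hxy⟩

end Pool.Agent.Results.MP_682377_al.WeakRingsOfLargeFPD
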